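import Pool.Agent.W522.E.E4

/-!
# Yoneda 2-extensions of mixed `ℓ`-adic representations of a number field: the local-global
principle and the vanishing of the local obstructions away from `ℓ`
-/

set_option autoImplicit false

namespace Pool.Agent.Results.MP_5968e7_ag.LiftingExtensions

open NumberField IsDedekindDomain Pool.Agent.W522.E

theorem result (k : Type) [Field k] [NumberField k] (ℓ : ℕ) [Fact ℓ.Prime] (P : Choice k)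
    (hF : FrobeniusGenerates P) (hTD : TateDuality ℓ P) (hTI : TateInertia ℓ P)
    {n m r : ℕ} (ρW : Gk k →* Module.End ℚ_[ℓ] (V ℓ n))
    (ρB : Gk k →* Module.End ℚ_[ℓ] (V ℓ m)) (ρE : Gk k →* Module.End ℚ_[ℓ] (V ℓ r))
    (i : V ℓ n →ₗ[ℚ_[ℓ]] V ℓ m) (π : V ℓ m →ₗ[ℚ_[ℓ]] V ℓ r) (h : Exact3 ρW ρB ρE i π)
    (hWc : Cont ρW) (hBc : Cont ρB) (hEc : Cont ρE)
    (S T : Set (HeightOneSpectrum (𝓞 k))) (hS : S.Finite)
    (hℓ : ∀ v : HeightOneSpectrum (𝓞 k), (ℓ : 𝓞 k) ∈ v.asIdeal → v ∈ T)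
    (hur : UnramRep P S ρB) (hw : NegativeWeights P S ρB)
    (h2 : HasseTwo P ρW)
    (Loc : HeightOneSpectrum (𝓞 k) → (Gk k → V ℓ n) → Prop) (h1 : WeakOne P ρW T Loc)
    (hloc : ∀ v ∈ S, v ∉ T →
      (∀ f : V ℓ n →ₗ[ℚ_[ℓ]] ℚ_[ℓ],
        (∀ g ∈ Dec P v, ∀ x, f (ρW g x) = chi ℓ k g * f x) → f = 0) ∨
      ((∀ x, (∀ g ∈ Dec P v, ρE g x = x) → x = 0) ∧
        ∀ φ, IsFrob P v φ → SemisimpleAt (ρB φ) (chi ℓ k φ)))
    (a : Gk k → V ℓ r) (ha : OneCocycle ⊤ ρE a) (hau : UnramCoc P S a)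
    (b : HeightOneSpectrum (𝓞 k) → Gk k → V ℓ m)
    (hb : ∀ v ∈ T, OneCocycle (Dec P v) ρB (b v) ∧ ∀ g ∈ Dec P v, π (b v g) = a g) :
    ∃ S' : Set (HeightOneSpectrum (𝓞 k)), S'.Finite ∧ ∃ A, OneCocycle ⊤ ρB A ∧
      UnramCoc P S' A ∧ (∀ g, π (A g) = a g) ∧
      ∀ v ∈ T, ∃ y, Loc v y ∧ ∀ g ∈ Dec P v, A g = b v g - i (y g) :=
  lifting_negative P hF hTD hTI h hWc hBc hEc h2 S T hS Loc h1 hur hw hℓ hloc a ha hau b hb

end Pool.Agent.Results.MP_5968e7_ag.LiftingExtensions
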